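import Pool.Agent.H33.HH.TD
import Pool.Agent.H49.CV.CX
import Pool.Agent.H96.CV.Basic

/-!
# The first moment (row FMM)
-/

set_option autoImplicit false

open NumberField Complex Filter Topology MeasureTheory
open scoped ContDiff nonZeroDivisors

namespace Pool.Agent.H49.HH

open Pool.Agent.H33.HH Pool.Agent.H28.RC Pool.Agent.H37.CV

noncomputable section

section aux

variable {K : Type} [Field K] [NumberField K]

theorem tsum_NI' {E : Type} [AddCommMonoid E] [TopologicalSpace E] [T2Space E]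
    (f : Ideal (𝓞 K) → E) (F : Finset (Ideal (𝓞 K)))
    (hF : ∀ q ∈ F, q ≠ ⊥) (h : ∀ q, q ≠ ⊥ → q ∉ F → f q = 0) :
    ∑' q : NI K, f q.1 = ∑ q ∈ F, f q := by
  classical
  rw [tsum_eq_sum (s := F.subtype fun q => q ≠ ⊥)]
  · exact Finset.sum_subtype_of_mem f hF
  · intro q hq
    refine h q.1 q.2 fun h1 => hq ?_
    rw [Finset.mem_subtype]
    exact h1

theorem fin_nm (x : ℝ) : {I : Ideal (𝓞 K) | nm I ≤ x}.Finite := by
  refine (Ideal.finite_setOfPred_absNorm_le (S := 𝓞 K) ⌊x⌋₊).subset fun I hI => ?_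
  exact Nat.le_floor hI

theorem Cp_top (P : ℝ) : Cp P (⊤ : Ideal (𝓞 K)) := by
  intro p hp
  exact absurd (top_le_iff.1 hp) p.2.1.ne_top

theorem nm_top : nm (⊤ : Ideal (𝓞 K)) = 1 := by
  simp [nm]

theorem cfm_top {P y Z : ℝ} {G : ℝ → ℝ} (hG : IsG G) (hy : 1 ≤ y) (hZ : 1 ≤ Z) :
    cfm P y Z G (⊤ : Ideal (𝓞 K)) = 1 := by
  classical
  obtain ⟨hx, -, -⟩ := Pool.Agent.H49.CV.pf_CX (PrI K) np (AP K P y) y
    Pool.Agent.H96.CV.two_le_np hy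
  have hf : (DP K P y).filter (fun S => idS S ∣ (⊤ : Ideal (𝓞 K))) = {∅} := by
    ext S
    rw [Finset.mem_filter, Finset.mem_singleton]
    constructor
    · rintro ⟨-, h2⟩
      rw [Finset.eq_empty_iff_forall_notMem]
      intro p hp
      have h3 : (⊤ : Ideal (𝓞 K)) ≤ p.1 :=
        (Ideal.le_of_dvd h2).trans (Ideal.le_of_dvd (Finset.dvd_prod_of_mem (fun p : PrI K => p.1) hp))
      exact p.2.1.ne_top (top_le_iff.1 h3)
    · rintro rfl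
      refine ⟨?_, ?_⟩
      · rw [DP, DS, Finset.mem_filter, Finset.mem_powerset]
        exact ⟨Finset.empty_subset _, by simpa [nS] using hy⟩
      · simp [idS]
  rw [cfm, if_pos ⟨bot_ne_top.symm, Cp_top P⟩, hf, Finset.sum_singleton, lm, hx, nm_top]
  have h1 : nS np (∅ : Finset (PrI K)) = 1 := by simp [nS]
  rw [h1, gz, hG.low _ (by rw [div_one]; exact (div_le_one (by linarith)).2 hZ)]
  simp

end aux

theorem pf_FMM (hN : T_NRM) (h1 : T_QSB) (h2 : T_CSU) (h3 : T_BQC) (h4 : T_IEX) : T_FMM := by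
  classical
  intro K _ _ _ P W G k θ e hW hG hk hPar
  have : IsTotallyComplex K := (hN K).1
  obtain ⟨δ, hδ, hlow⟩ := hW.low
  obtain ⟨C1, hC1, hQ1⟩ := h1 K P k e hk hPar.epos
  obtain ⟨C2, hC2, hQ2⟩ := h2 K P θ e G hG hPar.θpos hPar.epos
  refine ⟨C1 * C2, max 2 (1 / δ + 1), mul_nonneg hC1 hC2,
    le_max_of_le_left (by norm_num), fun Q hQ => ?_⟩
  have hQ2' : 2 ≤ Q := (le_max_left _ _).trans hQ
  have hQδ : 1 / δ < Q := by linarith [(le_max_right 2 (1 / δ + 1)).trans hQ]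
  have hQp : 0 < Q := by linarith
  have hQ1' : 1 ≤ Q := by linarith
  have hθ := hPar.θpos
  have he := hPar.epos
  have hle := hPar.le
  set y := Q ^ θ with hy
  set Z := Q ^ (1 + e) with hZ
  have hy1 : 1 ≤ y := Real.one_le_rpow hQ1' hθ.le
  have hZ1 : 1 ≤ Z := Real.one_le_rpow hQ1' (by linarith)
  obtain ⟨hs1, hs2, hs3, -⟩ := h3 K P y Z G hG hy1 (by linarith)
  have hyZ : 3 * y * Z ≤ Q ^ 4 := by
    have e1 : 3 * y * Z = 3 * Q ^ (θ + (1 + e)) := by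
      rw [Real.rpow_add hQp]
      ring
    have e2 : Q ^ (θ + (1 + e)) ≤ Q ^ (2 : ℝ) :=
      Real.rpow_le_rpow_of_exponent_le hQ1' (by linarith)
    rw [Real.rpow_two] at e2
    rw [e1]
    have e3 : (4 : ℝ) ≤ Q ^ 2 := by nlinarith
    nlinarith
  -- the finite set of the conductors
  set F : Finset (Ideal (𝓞 K)) := (fin_nm (K := K) Q).toFinset.filter
    (fun q => q ≠ ⊥ ∧ Cp P q ∧ nm q ≤ Q ∧ k * q ≠ ⊤) with hF
  have hmemF : ∀ q, q ∈ F ↔ q ≠ ⊥ ∧ Cp P q ∧ nm q ≤ Q ∧ k * q ≠ ⊤ := by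
    intro q
    rw [hF, Finset.mem_filter, Set.Finite.mem_toFinset, Set.mem_ofPred_eq]
    constructor
    · rintro ⟨-, h⟩
      exact h
    · intro h
      exact ⟨h.2.2.1, h⟩
  have hWz : ∀ q : Ideal (𝓞 K), q ≠ ⊥ → Cp P q → q ∉ F → W (nm q / Q) = 0 := by
    intro q hq0 hqc hqF
    rw [hmemF] at hqF
    by_cases hq1 : nm q ≤ Q
    · have hq2 : k * q = ⊤ := by
        by_contra hne
        exact hqF ⟨hq0, hqc, hq1, hne⟩
      have hq3 : q = ⊤ := top_le_iff.1 (hq2 ▸ Ideal.mul_le_right)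
      rw [hq3, nm_top]
      refine hlow _ ?_
      rw [div_le_iff₀ hQp]
      rw [div_lt_iff₀ hδ] at hQδ
      linarith
    · refine hW.high _ ?_
      rw [le_div_iff₀ hQp]
      linarith [not_le.1 hq1]
  -- the two moments as finite sums
  have hM1 : M1 P y Z Q W G k = ∑ q ∈ F, ((W (nm q / Q) : ℝ) : ℂ) *
      ∑ᶠ χ ∈ Pr K (k * q), Bv P y Z G χ.ψ := by
    rw [M1, tsum_NI' (fun q => if Cp P q then ((W (nm q / Q) : ℝ) : ℂ) *
      ∑ᶠ χ ∈ Pr K (k * q), Bv P y Z G χ.ψ else 0) F (fun q hq => ((hmemF q).1 hq).1)]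
    · refine Finset.sum_congr rfl fun q hq => ?_
      rw [if_pos ((hmemF q).1 hq).2.1]
    · intro q hq0 hqF
      by_cases hqc : Cp P q
      · rw [if_pos hqc, hWz q hq0 hqc hqF]
        simp
      · rw [if_neg hqc]
  have hM0 : M0 P Q W k = ∑ q ∈ F, W (nm q / Q) * ((Pr K (k * q)).ncard : ℝ) := by
    rw [M0, sumC, tsum_NI' (fun q => if Cp P q then W (nm q / Q) *
      ((Pr K (k * q)).ncard : ℝ) else 0) F (fun q hq => ((hmemF q).1 hq).1)]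
    · refine Finset.sum_congr rfl fun q hq => ?_
      rw [if_pos ((hmemF q).1 hq).2.1]
    · intro q hq0 hqF
      by_cases hqc : Cp P q
      · rw [if_pos hqc, hWz q hq0 hqc hqF]
        simp
      · rw [if_neg hqc]
  -- the coefficients
  set N : Finset (Ideal (𝓞 K)) := hs1.toFinset with hNdef
  have hmemN : ∀ n, n ∈ N ↔ cfm P y Z G n ≠ 0 := by
    intro n
    rw [hNdef, Set.Finite.mem_toFinset, Function.mem_support]
  have hct : cfm P y Z G (⊤ : Ideal (𝓞 K)) = 1 := cfm_top hG hy1 hZ1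
  have htopN : (⊤ : Ideal (𝓞 K)) ∈ N := by
    rw [hmemN, hct]
    exact one_ne_zero
  have hBv : ∀ χ : RCC K, Bv P y Z G χ.ψ =
      1 + ∑ n ∈ N.erase ⊤, (cfm P y Z G n : ℂ) * χ.ψ n := by
    intro χ
    rw [hs3 χ.ψ χ.map_mul, finsum_eq_sum_of_support_subset (s := N),
      ← Finset.add_sum_erase N _ htopN, hct, χ.map_one]
    · simp
    · intro n hn
      rw [Finset.mem_coe, hmemN]
      intro h0
      rw [Function.mem_support, h0] at hn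
      simp at hn
  -- the sum over the characters
  have hinner : ∀ q ∈ F, ∑ᶠ χ ∈ Pr K (k * q), Bv P y Z G χ.ψ =
      ((Pr K (k * q)).ncard : ℂ) + ∑ n ∈ N.erase ⊤, (cfm P y Z G n : ℂ) *
        ∑ᶠ χ ∈ Pr K (k * q), χ.ψ n := by
    intro q hq
    have hfin : (Pr K (k * q)).Finite :=
      (h4 K (k * q) (mul_ne_zero hk.1 ((hmemF q).1 hq).1)).1
    rw [finsum_mem_eq_finite_toFinset_sum _ hfin, Set.ncard_eq_toFinset_card _ hfin]
    have e1 : ∀ n, ∑ᶠ χ ∈ Pr K (k * q), χ.ψ n = ∑ χ ∈ hfin.toFinset, χ.ψ n :=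
      fun n => finsum_mem_eq_finite_toFinset_sum _ hfin
    simp only [e1, hBv, Finset.sum_add_distrib, Finset.sum_const, nsmul_eq_mul, mul_one,
      Finset.mul_sum]
    rw [Finset.sum_comm]
  have hdiff : M1 P y Z Q W G k - ((M0 P Q W k : ℝ) : ℂ) =
      ∑ q ∈ F, ((W (nm q / Q) : ℝ) : ℂ) * ∑ n ∈ N.erase ⊤, (cfm P y Z G n : ℂ) *
        ∑ᶠ χ ∈ Pr K (k * q), χ.ψ n := by
    rw [hM1, hM0]
    push_cast
    rw [← Finset.sum_sub_distrib]
    refine Finset.sum_congr rfl fun q hq => ?_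
    rw [hinner q hq]
    ring
  rw [hdiff]
  have hbd : ∀ q ∈ F, ‖((W (nm q / Q) : ℝ) : ℂ) * ∑ n ∈ N.erase ⊤, (cfm P y Z G n : ℂ) *
      ∑ᶠ χ ∈ Pr K (k * q), χ.ψ n‖ ≤ ∑ n ∈ N.erase ⊤, |cfm P y Z G n| *
        ‖∑ᶠ χ ∈ Pr K (k * q), χ.ψ n‖ := by
    intro q _
    rw [norm_mul, Complex.norm_real]
    have hw1 : ‖W (nm q / Q)‖ ≤ 1 := by
      rw [Real.norm_eq_abs, abs_of_nonneg (hW.bd _).1]
      exact (hW.bd _).2
    have hn1 : ‖∑ n ∈ N.erase ⊤, (cfm P y Z G n : ℂ) * ∑ᶠ χ ∈ Pr K (k * q), χ.ψ n‖ ≤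
        ∑ n ∈ N.erase ⊤, |cfm P y Z G n| * ‖∑ᶠ χ ∈ Pr K (k * q), χ.ψ n‖ := by
      refine (norm_sum_le _ _).trans (le_of_eq ?_)
      refine Finset.sum_congr rfl fun n _ => ?_
      rw [norm_mul, Complex.norm_real, Real.norm_eq_abs]
    calc _ ≤ 1 * ∑ n ∈ N.erase ⊤, |cfm P y Z G n| * ‖∑ᶠ χ ∈ Pr K (k * q), χ.ψ n‖ :=
          mul_le_mul hw1 hn1 (norm_nonneg _) zero_le_one
      _ = _ := one_mul _
  have hsum : ∀ n ∈ N.erase ⊤, ∑ q ∈ F, ‖∑ᶠ χ ∈ Pr K (k * q), χ.ψ n‖ ≤ C1 * Q ^ (1 + e) := by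
    intro n hn
    rw [Finset.mem_erase, hmemN] at hn
    obtain ⟨hn1, -, hn2⟩ := hs2 n hn.2
    have h5 := hQ1 Q hQ1' n hn1 hn.1 (hn2.trans hyZ)
    have h6 : ∑ᶠ q ∈ {q : Ideal (𝓞 K) | q ≠ ⊥ ∧ Cp P q ∧ nm q ≤ Q ∧ k * q ≠ ⊤},
        ‖∑ᶠ χ ∈ Pr K (k * q), χ.ψ n‖ = ∑ q ∈ F, ‖∑ᶠ χ ∈ Pr K (k * q), χ.ψ n‖ := by
      rw [← finsum_mem_coe_finset]
      refine finsum_mem_congr ?_ fun _ _ => rfl
      ext q
      rw [Set.mem_ofPred_eq, Finset.mem_coe, hmemF]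
    rw [← h6]
    exact h5
  have hcs : ∑ n ∈ N.erase ⊤, |cfm P y Z G n| ≤ C2 * Q ^ ((1 + θ + e) / 2) := by
    have h5 := hQ2 Q hQ1'
    rw [finsum_eq_sum_of_support_subset (s := N)] at h5
    · exact (Finset.sum_le_sum_of_subset_of_nonneg (Finset.erase_subset _ _)
        fun _ _ _ => abs_nonneg _).trans h5
    · intro n hn
      rw [Finset.mem_coe, hmemN]
      intro h0
      rw [Function.mem_support] at hn
      apply hn
      rw [← hy, ← hZ, h0, abs_zero]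
  calc ‖∑ q ∈ F, ((W (nm q / Q) : ℝ) : ℂ) * ∑ n ∈ N.erase ⊤, (cfm P y Z G n : ℂ) *
        ∑ᶠ χ ∈ Pr K (k * q), χ.ψ n‖
      ≤ ∑ q ∈ F, ∑ n ∈ N.erase ⊤, |cfm P y Z G n| * ‖∑ᶠ χ ∈ Pr K (k * q), χ.ψ n‖ :=
        (norm_sum_le _ _).trans (Finset.sum_le_sum hbd)
    _ = ∑ n ∈ N.erase ⊤, |cfm P y Z G n| * ∑ q ∈ F, ‖∑ᶠ χ ∈ Pr K (k * q), χ.ψ n‖ := by
        rw [Finset.sum_comm]
        refine Finset.sum_congr rfl fun n _ => ?_
        rw [Finset.mul_sum]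
    _ ≤ ∑ n ∈ N.erase ⊤, |cfm P y Z G n| * (C1 * Q ^ (1 + e)) :=
        Finset.sum_le_sum fun n hn => mul_le_mul_of_nonneg_left (hsum n hn) (abs_nonneg _)
    _ = (∑ n ∈ N.erase ⊤, |cfm P y Z G n|) * (C1 * Q ^ (1 + e)) := by rw [Finset.sum_mul]
    _ ≤ (C2 * Q ^ ((1 + θ + e) / 2)) * (C1 * Q ^ (1 + e)) :=
        mul_le_mul_of_nonneg_right hcs (mul_nonneg hC1 (Real.rpow_nonneg hQp.le _))
    _ = C1 * C2 * Q ^ ((1 + θ + e) / 2 + (1 + e)) := by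
        have h7 := Real.rpow_add hQp ((1 + θ + e) / 2) (1 + e)
        rw [h7]
        ring
    _ ≤ C1 * C2 * Q ^ (2 - e) :=
        mul_le_mul_of_nonneg_left (Real.rpow_le_rpow_of_exponent_le hQ1' (by linarith))
          (mul_nonneg hC1 hC2)

end

end Pool.Agent.H49.HH
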