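import Pool.Agent.H33.HH.TC

/-!
# Lattice bases of the fractional ideals of an imaginary quadratic field (row LTB)
-/

set_option autoImplicit false

open NumberField Complex Filter Topology MeasureTheory
open scoped ContDiff nonZeroDivisors

namespace Pool.Agent.H49.HH

open Pool.Agent.H33.HH Pool.Agent.H28.RC Pool.Agent.H37.CV

noncomputable section

/-- the trace is the sum over the two embeddings -/
theorem tr_eq (K : Type) [Field K] [NumberField K] [IQ K] (hc : IsTotallyComplex K) (x : K) :
    ((Algebra.trace ℚ K x : ℚ) : ℂ) = em K x + (starRingEnd ℂ) (em K x) := by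
  classical
  have h := trace_eq_sum_embeddings (K := ℚ) (L := K) (E := ℂ) (x := x)
  have hne : (em K).toRatAlgHom ≠ (ComplexEmbedding.conjugate (em K)).toRatAlgHom := by
    intro h1
    refine IsTotallyComplex.complexEmbedding_not_isReal (em K) ?_
    rw [ComplexEmbedding.isReal_iff]
    ext y
    have h2 := congrArg (fun f => f y) h1
    simpa using h2.symm
  have hu : (Finset.univ : Finset (K →ₐ[ℚ] ℂ)) =
      {(em K).toRatAlgHom, (ComplexEmbedding.conjugate (em K)).toRatAlgHom} := by
    symm
    apply Finset.eq_univ_of_card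
    rw [Finset.card_pair hne, AlgHom.card, IQ.two]
  rw [hu, Finset.sum_pair hne] at h
  simpa using h

theorem pf_LTB (h : T_NRM) : T_LTB := by
  classical
  intro K _ _ _ J hJ
  obtain ⟨hc, -⟩ := h K
  set u : (FractionalIdeal (𝓞 K)⁰ K)ˣ := Units.mk0 J hJ with hu
  set b := basisOfFractionalIdeal K u with hb
  have hcb : Fintype.card (Module.Free.ChooseBasisIndex ℤ u.1) = 2 := by
    rw [← Module.finrank_eq_card_basis b, IQ.two]
  have hcw : Fintype.card (Module.Free.ChooseBasisIndex ℤ (𝓞 K)) = 2 := by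
    rw [← Module.finrank_eq_card_basis (integralBasis K), IQ.two]
  set e := Fintype.equivFinOfCardEq hcb
  set e₀ := Fintype.equivFinOfCardEq hcw
  set b' := b.reindex e with hb'
  refine ⟨b' 0, b' 1, ?_, ?_, ?_⟩
  · intro x
    have h1 := mem_span_basisOfFractionalIdeal K (I := u) (x := x)
    have h2 : Set.range b = Set.range b' := by
      rw [hb', Module.Basis.range_reindex]
    rw [← hb, h2] at h1
    have h3 : x ∈ Submodule.span ℤ (Set.range b') ↔ x ∈ J := h1
    rw [← h3, Submodule.mem_span_range_iff_exists_fun]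
    constructor
    · rintro ⟨c, hc⟩
      refine ⟨c 0, c 1, ?_⟩
      rw [← hc, Fin.sum_univ_two]
      simp
    · rintro ⟨m, n, hx⟩
      refine ⟨![m, n], ?_⟩
      rw [hx, Fin.sum_univ_two]
      simp
  · intro m n hmn
    have h1 := b'.linearIndependent
    rw [Fintype.linearIndependent_iff] at h1
    have h2 := h1 ![(m : ℚ), (n : ℚ)] (by
      rw [Fin.sum_univ_two]
      simpa [Algebra.smul_def] using hmn)
    have h3 := h2 0
    have h4 := h2 1
    simp at h3 h4
    exact ⟨h3, h4⟩
  · have hdet := det_basisOfFractionalIdeal_eq_absNorm K u (e₀.trans e.symm)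
    set b'' := b.reindex (e₀.trans e.symm).symm with hb''
    have h1 : Algebra.discr ℚ b'' = ((integralBasis K).det b'') ^ 2 *
        Algebra.discr ℚ (integralBasis K) := by
      rw [Module.Basis.det_apply, ← Algebra.discr_of_matrix_vecMul,
        Module.Basis.toMatrix_map_vecMul]
    have h2 : Algebra.discr ℚ b'' = Algebra.discr ℚ b' := by
      have h3 := Algebra.discr_reindex ℚ b' e₀.symm
      rw [← h3]
      congr 1
      ext i
      simp [hb', hb'']
    have h4 : (Algebra.discr ℚ b' : ℚ) = (FractionalIdeal.absNorm J) ^ 2 * (discr K : ℚ) := by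
      rw [← h2, h1, coe_discr, ← sq_abs, hdet]
      rfl
    have h5 : ((Algebra.discr ℚ b' : ℚ) : ℂ) =
        (em K (b' 0) * (starRingEnd ℂ) (em K (b' 1)) -
          (starRingEnd ℂ) (em K (b' 0)) * em K (b' 1)) ^ 2 := by
      rw [Algebra.discr_def, Matrix.det_fin_two]
      simp only [Algebra.traceMatrix_apply, Algebra.traceForm_apply]
      push_cast
      rw [tr_eq K hc, tr_eq K hc, tr_eq K hc, tr_eq K hc]
      simp only [map_mul]
      ring
    set w := em K (b' 0) * (starRingEnd ℂ) (em K (b' 1)) with hw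
    have h6 : (starRingEnd ℂ) (em K (b' 0)) * em K (b' 1) = (starRingEnd ℂ) w := by
      rw [hw, map_mul, Complex.conj_conj]
    rw [h6, Complex.sub_conj] at h5
    have h7 : ((Algebra.discr ℚ b' : ℚ) : ℝ) = -(4 * w.im ^ 2) := by
      have h8 : (((Algebra.discr ℚ b' : ℚ) : ℝ) : ℂ) = ((-(4 * w.im ^ 2) : ℝ) : ℂ) := by
        push_cast
        rw [h5]
        push_cast
        rw [mul_pow, Complex.I_sq]
        ring
      exact_mod_cast h8
    rw [h4] at h7
    have hneg : (discr K : ℝ) < 0 := by exact_mod_cast (IQ.neg : discr K < 0)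
    have hs : sd K ^ 2 = - (discr K : ℝ) := by
      rw [sd, Real.sq_sqrt (abs_nonneg _), abs_of_neg hneg]
    have hN : (0 : ℝ) ≤ ((FractionalIdeal.absNorm J : ℚ) : ℝ) := by
      exact_mod_cast FractionalIdeal.absNorm_nonneg J
    have hs0 : 0 ≤ sd K := Real.sqrt_nonneg _
    rw [← abs_of_nonneg (mul_nonneg (div_nonneg hs0 (by norm_num : (0:ℝ) ≤ 2)) hN),
      ← sq_eq_sq_iff_abs_eq_abs, mul_pow, div_pow, hs]
    push_cast at h7
    nlinarith [h7]

end

end Pool.Agent.H49.HH
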